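import Pool.Agent.Helper80.HD.GoalsB

/-! Packet GEL of project HD: Gelfond's inequality. -/

set_option autoImplicit false

open MvPolynomial Filter Topology

noncomputable section

namespace Pool.Agent.Helper51.HD

open Pool.Agent.Helper80.HD

theorem gn_rename (hG : S_GNM) {R : Type} [Field R] {σ τ : Type} (w : AbsoluteValue R ℝ) (e : σ ≃ τ)
    (P : MvPolynomial σ R) (hP : P ≠ 0) : gn w (rename e P) = gn w P := by
  have hinj : Function.Injective (rename (R := R) e) := rename_injective _ e.injective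
  have hne : rename e P ≠ 0 := by
    intro h
    exact hP (hinj (by rw [h, map_zero]))
  obtain ⟨-, -, -, h4, h5, -⟩ := hG.2.1 R σ w
  obtain ⟨-, -, -, k4, k5, -⟩ := hG.2.1 R τ w
  apply le_antisymm
  · obtain ⟨s, -, hs⟩ := k5 (rename e P) hne
    rw [hs]
    have : s = Finsupp.mapDomain e (Finsupp.mapDomain e.symm s) := by
      rw [← Finsupp.mapDomain_comp]
      simp
    rw [this, coeff_rename_mapDomain _ e.injective]
    exact h4 P _
  · obtain ⟨s, -, hs⟩ := h5 P hP
    rw [hs, ← coeff_rename_mapDomain e e.injective]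
    exact k4 _ _

theorem gel (hT : S_TOR) (hE : S_EVB) (hG : S_GNM) : S_GEL := by
  intro σ _
  set n := Fintype.card σ with hn
  let e : σ ≃ Fin n := Fintype.equivFin σ
  have hl2 : 0 ≤ Real.log 2 := Real.log_nonneg (by norm_num)
  have hn0 : (0 : ℝ) ≤ n := Nat.cast_nonneg n
  have hln : 0 ≤ Real.log ((n : ℝ) + 1) := Real.log_nonneg (by linarith)
  refine ⟨n * Real.log 2 + Real.log ((n : ℝ) + 1), by positivity, ?_⟩
  intro ι _ R hR
  have hinj : Function.Injective (rename (R := ℂ) e) := rename_injective _ e.injective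
  set R' : ι → MvPolynomial (Fin n) ℂ := fun i => rename e (R i) with hR'
  have hR0 : ∀ i, R' i ≠ 0 := by
    intro i h
    exact hR i (hinj (by rw [map_zero]; exact h))
  have hprod : ∏ i, R i ≠ 0 := Finset.prod_ne_zero_iff.mpr fun i _ => hR i
  have hprod' : ∏ i, R' i ≠ 0 := Finset.prod_ne_zero_iff.mpr fun i _ => hR0 i
  have hgi : ∀ i, gn absC (R' i) = gn absC (R i) := fun i => gn_rename hG absC e (R i) (hR i)
  have hgp : gn absC (∏ i, R' i) = gn absC (∏ i, R i) := by
    rw [← gn_rename hG absC e _ hprod, map_prod]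
  obtain ⟨p1, -⟩ := hG.2.1 ℂ σ absC
  have hpi : ∀ i, 0 < gn absC (R i) := fun i => p1 _ (hR i)
  have hpp : 0 < gn absC (∏ i, R i) := p1 _ hprod
  have hdeg : ∀ i, (R' i).totalDegree ≤ (R i).totalDegree := fun i => totalDegree_rename_le _ _
  set D : ℕ := ∑ i, (R i).totalDegree with hD
  have hD' : ∑ i, (R' i).totalDegree ≤ D := Finset.sum_le_sum fun i _ => hdeg i
  obtain ⟨w, hw, -, hw2⟩ := hT n ι R' hR0 ∅ Set.countable_empty (by simp)
  obtain ⟨e1, e2⟩ := hE (Fin n)
  have h1 : ∏ i, ‖eval w (R' i)‖ ≤ ((n : ℝ) + 1) ^ D * gn absC (∏ i, R i) := by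
    calc ∏ i, ‖eval w (R' i)‖ = ‖eval w (∏ i, R' i)‖ := by
          rw [map_prod, norm_prod]
      _ ≤ ((Fintype.card (Fin n) : ℝ) + 1) ^ (∏ i, R' i).totalDegree * gn absC (∏ i, R' i) :=
          e1 _ w fun j => (hw j).le
      _ ≤ _ := by
          rw [hgp, Fintype.card_fin]
          apply mul_le_mul_of_nonneg_right _ hpp.le
          apply pow_le_pow_right₀ (by linarith)
          exact (totalDegree_finset_prod _ _).trans hD'
  have h2 : n + ∑ i, ∑ j, (R' i).degreeOf j ≤ n + n * D := by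
    apply Nat.add_le_add_left
    calc ∑ i, ∑ j, (R' i).degreeOf j ≤ ∑ i, ∑ _j : Fin n, (R i).totalDegree :=
          Finset.sum_le_sum fun i _ => Finset.sum_le_sum fun j _ =>
            (degreeOf_le_totalDegree _ _).trans (hdeg i)
      _ = n * D := by
          simp [hD, Finset.mul_sum]
  have h3 : ∏ i, gn absC (R i) ≤ 2 ^ (n + n * D) * (((n : ℝ) + 1) ^ D * gn absC (∏ i, R i)) := by
    calc ∏ i, gn absC (R i) = ∏ i, gn absC (R' i) := by simp_rw [hgi]
      _ ≤ _ := hw2
      _ ≤ _ := by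
          apply mul_le_mul _ h1 (Finset.prod_nonneg fun i _ => norm_nonneg _) (by positivity)
          exact pow_le_pow_right₀ (by norm_num) h2
  have h4 : gn absC (∏ i, R i) ≤ ((n : ℝ) + 1) ^ D * ∏ i, gn absC (R i) := by
    have := e2 ι Finset.univ R'
    rw [hgp, Fintype.card_fin] at this
    simp_rw [hgi] at this
    refine this.trans ?_
    apply mul_le_mul_of_nonneg_right _ (Finset.prod_nonneg fun i _ => (hpi i).le)
    exact pow_le_pow_right₀ (by linarith) hD'
  have hP : 0 < ∏ i, gn absC (R i) := Finset.prod_pos fun i _ => hpi i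
  have l3 : Real.log (∏ i, gn absC (R i)) ≤
      ((n : ℝ) + n * D) * Real.log 2 + (D * Real.log ((n : ℝ) + 1) + Real.log (gn absC (∏ i, R i))) := by
    have := Real.log_le_log hP h3
    rw [Real.log_mul (by positivity) (by positivity), Real.log_mul (by positivity) (by positivity),
      Real.log_pow, Real.log_pow] at this
    push_cast at this
    exact this
  have l4 : Real.log (gn absC (∏ i, R i)) ≤
      D * Real.log ((n : ℝ) + 1) + Real.log (∏ i, gn absC (R i)) := by
    have := Real.log_le_log hpp h4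
    rw [Real.log_mul (by positivity) (by positivity), Real.log_pow] at this
    exact this
  have hlp : Real.log (∏ i, gn absC (R i)) = ∑ i, Real.log (gn absC (R i)) :=
    Real.log_prod fun i _ => (hpi i).ne'
  rw [hlp] at l3 l4
  have hDc : (∑ i, ((R i).totalDegree : ℝ)) = D := by rw [hD]; push_cast; rfl
  rw [hDc]
  have hDn : (0 : ℝ) ≤ D := Nat.cast_nonneg D
  have m1 : 0 ≤ (D : ℝ) * Real.log ((n : ℝ) + 1) := mul_nonneg hDn hln
  have m2 : 0 ≤ (n : ℝ) * Real.log 2 := mul_nonneg hn0 hl2
  have m3 : 0 ≤ (n : ℝ) * Real.log 2 * D := mul_nonneg m2 hDn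
  rw [abs_le]
  constructor <;> nlinarith

end Pool.Agent.Helper51.HD
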