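import Pool.Agent.Helper80.HD.GoalsA

/-! Packet TDG of project HD: total degree and block degrees. -/

set_option autoImplicit false

open MvPolynomial Filter Topology

noncomputable section

namespace Pool.Agent.Helper51.HD

open Pool.Agent.Helper80.HD

section
variable {K : Type} [Field K] {r N : ℕ}

/-- weight of an exponent in the block `i` -/
def bw (i : Fin r) (s : Fin r × Fin (N + 1) →₀ ℕ) : ℕ := ∑ j, s (i, j)

/-- multiply the variables of the block `i` by `T` -/
def phi (K : Type) [Field K] {r N : ℕ} (i : Fin r) : MvPolynomial (Fin r × Fin (N + 1)) K →ₐ[K]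
    Polynomial (MvPolynomial (Fin r × Fin (N + 1)) K) :=
  aeval fun q => Polynomial.C (X q) * Polynomial.X ^ (if q.1 = i then 1 else 0)

theorem phi_monomial (i : Fin r) (s : Fin r × Fin (N + 1) →₀ ℕ) (a : K) :
    phi K i (monomial s a) = Polynomial.C (monomial s a) * Polynomial.X ^ (bw i s) := by
  unfold phi bw
  rw [aeval_monomial]
  rw [Finsupp.prod_fintype _ _ (by intro q; simp)]
  simp_rw [mul_pow]
  rw [Finset.prod_mul_distrib, ← mul_assoc]
  congr 1
  · rw [monomial_eq, Finsupp.prod_fintype _ _ (by intro q; simp), map_mul, map_prod]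
    simp_rw [map_pow]
    rfl
  · simp_rw [← pow_mul]
    rw [Finset.prod_pow_eq_pow_sum]
    congr 1
    rw [Fintype.sum_prod_type]
    rw [Finset.sum_eq_single i]
    · simp
    · intro b _ hb
      simp [hb]
    · simp

theorem coeff_phi (i : Fin r) (Q : MvPolynomial (Fin r × Fin (N + 1)) K) (n : ℕ)
    (t : Fin r × Fin (N + 1) →₀ ℕ) :
    ((phi K i Q).coeff n).coeff t = if bw i t = n then Q.coeff t else 0 := by
  classical
  conv_lhs => rw [Q.as_sum]
  rw [map_sum, Polynomial.finsetSum_coeff, coeff_sum]
  simp_rw [phi_monomial, Polynomial.coeff_C_mul, Polynomial.coeff_X_pow]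
  have h : ∀ x ∈ Q.support, coeff t ((monomial x (coeff x Q)) *
      (if n = bw i x then (1 : MvPolynomial (Fin r × Fin (N + 1)) K) else 0)) =
      if x = t then (if bw i t = n then Q.coeff t else 0) else 0 := by
    intro x _
    by_cases hx : x = t
    · subst hx
      by_cases hn : n = bw i x
      · subst hn; simp
      · have hn' : ¬ bw i x = n := fun h => hn h.symm
        simp [hn, hn']
    · by_cases hn : n = bw i x
      · subst hn
        simp [hx]
      · simp [hn, hx]
  rw [Finset.sum_congr rfl h]
  rw [Finset.sum_ite_eq' Q.support t]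
  by_cases ht : t ∈ Q.support
  · simp [ht]
  · have : Q.coeff t = 0 := by simpa using ht
    simp [ht, this]

theorem natDegree_phi (i : Fin r) (Q : MvPolynomial (Fin r × Fin (N + 1)) K) :
    (phi K i Q).natDegree = bdeg i Q := by
  classical
  apply le_antisymm
  · rw [Polynomial.natDegree_le_iff_coeff_eq_zero]
    intro n hn
    ext t
    rw [coeff_phi]
    split_ifs with h
    · by_contra hc
      have ht : t ∈ Q.support := by
        rw [mem_support_iff]; simpa using hc
      have := Finset.le_sup (f := fun s : Fin r × Fin (N + 1) →₀ ℕ => ∑ j, s (i, j)) ht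
      have h2 : bdeg i Q < ∑ j, t (i, j) := by
        have : bw i t = ∑ j, t (i, j) := rfl
        omega
      exact absurd (lt_of_le_of_lt this h2) (lt_irrefl _)
    · simp
  · unfold bdeg
    apply Finset.sup_le
    intro s hs
    apply Polynomial.le_natDegree_of_ne_zero
    intro h0
    have := coeff_phi i Q (∑ j, s (i, j)) s
    rw [h0] at this
    have h1 : bw i s = ∑ j, s (i, j) := rfl
    rw [if_pos h1] at this
    rw [mem_support_iff] at hs
    exact hs (by rw [← this]; simp)

theorem phi_ne_zero (i : Fin r) {Q : MvPolynomial (Fin r × Fin (N + 1)) K} (hQ : Q ≠ 0) :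
    phi K i Q ≠ 0 := by
  intro h
  apply hQ
  ext t
  have := coeff_phi i Q (bw i t) t
  rw [h, if_pos rfl] at this
  rw [← this]
  simp

theorem sum_eq (s : Fin r × Fin (N + 1) →₀ ℕ) :
    (s.sum fun _ e => e) = ∑ i, ∑ j, s (i, j) := by
  rw [Finsupp.sum_fintype _ _ (by intro q; rfl), Fintype.sum_prod_type]

end

theorem tdg : S_TDG := by
  intro K _ r N P Q hP hQ
  refine ⟨?_, ?_, ?_, ?_⟩
  · intro h
    unfold totalDegree
    apply le_antisymm
    · apply Finset.sup_le
      intro s hs
      rw [sum_eq]
      exact le_of_eq (Finset.sum_congr rfl fun i _ => h s hs i)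
    · obtain ⟨s, hs⟩ := (support_nonempty.mpr hP)
      calc ∑ i, bdeg i P = s.sum fun _ e => e := by
            rw [sum_eq]
            exact (Finset.sum_congr rfl fun i _ => h s hs i).symm
        _ ≤ _ := Finset.le_sup (f := fun s : Fin r × Fin (N + 1) →₀ ℕ => s.sum fun _ e => e) hs
  · intro i
    rw [← natDegree_phi, ← natDegree_phi, ← natDegree_phi, map_mul,
      Polynomial.natDegree_mul (phi_ne_zero i hP) (phi_ne_zero i hQ)]
  · intro i e
    rw [← natDegree_phi, ← natDegree_phi, map_pow, Polynomial.natDegree_pow]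
  · unfold totalDegree
    apply Finset.sup_le
    intro s hs
    rw [sum_eq]
    apply Finset.sum_le_sum
    intro i _
    exact Finset.le_sup (f := fun s : Fin r × Fin (N + 1) →₀ ℕ => ∑ j, s (i, j)) hs

end Pool.Agent.Helper51.HD
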